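import Pool.Agent.H.MP_c47ae4_an.A

set_option autoImplicit false
set_option maxHeartbeats 400000
open MeasureTheory ProbabilityTheory Finset Filter
open scoped ENNReal ComplexConjugate

namespace Pool.Agent.H.MP_332aa0_an

open Pool.Agent.H.MP_c47ae4_an

/-- the constant sequence `2`: the Vilenkin group is the Walsh group -/
abbrev two : ℕ → ℕ := fun _ => 2

instance : ∀ k, NeZero (two k) := fun _ => inferInstanceAs (NeZero 2)

abbrev X := G two

noncomputable abbrev ν : Measure X := mu two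

noncomputable abbrev w := psi two

lemma M2 (n : ℕ) : M two n = 2 ^ n := by simp [M]

lemma h2 : ∀ k, 2 ≤ two k := fun _ => le_rfl

lemma w_dep {i L : ℕ} (h : i < 2 ^ L) : dep L (w i) := psi_dep (by rwa [M2])

lemma w_norm (i : ℕ) (x : X) : ‖w i x‖ = 1 := psi_norm h2 i x

lemma w_cm (i : ℕ) (x : X) : w i x * conj (w i x) = 1 := by rw [Complex.mul_conj', w_norm]; simp

lemma w_sub (i : ℕ) (x y : X) : w i (x - y) = w i x * conj (w i y) := by
  have : conj (w i (x - y)) * w i x = w i y := psi_sub h2 i x y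
  rw [← this, map_mul, Complex.conj_conj, mul_left_comm, w_cm, mul_one]

lemma w_eq {i L : ℕ} (h : i < 2 ^ L) (x : X) :
    w i x = ∏ k ∈ range L, r two k x ^ (i.testBit k).toNat := by
  rw [w, psi_eq (L := L) (by rwa [M2])]
  simp only [M2, Nat.toNat_testBit]

lemma w_split {t v : ℕ} (h : v < 2 ^ t) (u : ℕ) (z : X) :
    w (2 ^ t * u + v) z = w (2 ^ t * u) z * w v z := by
  have b : 2 ^ t * u + v < 2 ^ (2 ^ t * u + v) := Nat.lt_two_pow_self
  rw [w_eq b, w_eq (lt_of_le_of_lt (by omega) b), w_eq (lt_of_le_of_lt (by omega : v ≤ _) b),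
    ← prod_mul_distrib]
  refine prod_congr rfl fun k _ => ?_
  rw [← pow_add, Nat.testBit_two_pow_mul_add _ h, Nat.testBit_two_pow_mul]
  split_ifs with c
  · simp [c.not_ge]
  · rw [Nat.testBit_lt_two_pow (h.trans_le (Nat.pow_le_pow_right two_pos (by omega)))]
    simp [not_lt.1 c]

open Classical in
noncomputable def χ (t : ℕ) (z : X) : ℝ := if ∀ l < t, z l = 0 then 1 else 0

lemma D_pow (t : ℕ) (z : X) : ∑ q ∈ range (2 ^ t), w q z = 2 ^ t * χ t z := by
  have := P_eq (m := two) 1 t z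
  simp only [one_pow, one_mul, r_sum, M2] at this
  rw [this, χ]
  split_ifs with c
  · rw [prod_congr rfl fun l hl => if_pos (c l (mem_range.1 hl))]; simp
  · push Not at c
    obtain ⟨l, hl, c⟩ := c
    rw [prod_eq_zero (mem_range.2 hl) (if_neg c)]; simp

lemma χ_dep (t : ℕ) : dep t (χ t) := fun x y e => by
  simp only [χ]
  exact if_congr (forall₂_congr fun l hl => by rw [e l hl]) rfl rfl

lemma χ0 (t : ℕ) (z : X) : 0 ≤ χ t z := by unfold χ; positivity

section
variable {α β γ : Type} {L : ℕ} {g : X → α} {k : X → β}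

lemma dep2 (φ : α → β → γ) (a : dep L g) (b : dep L k) : dep L fun x => φ (g x) (k x) :=
  fun x y e => by simp only [a x y e, b x y e]

lemma dep1 (φ : α → γ) (a : dep L g) : dep L fun x => φ (g x) := fun x y e => by simp only [a x y e]

lemma dep_sub (a : dep L g) (y : X) : dep L (fun x => g (x - y)) ∧ dep L (fun x => g (y - x)) :=
  ⟨fun _ _ e => a _ _ fun l hl => by simp [e l hl], fun _ _ e => a _ _ fun l hl => by simp [e l hl]⟩

lemma dep_sum [AddCommMonoid α] {ι : Type} (s : Finset ι) {g : ι → X → α} (a : ∀ i ∈ s, dep L (g i)) :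
    dep L fun x => ∑ i ∈ s, g i x := fun x y e => sum_congr rfl fun i hi => a i hi x y e
end

lemma wd (q L : ℕ) : dep (q + L) (w q) :=
  w_dep (Nat.lt_two_pow_self.trans_le (Nat.pow_le_pow_right two_pos (by omega)))

lemma orth (q j : ℕ) : ∫ z, w q z * conj (w j z) ∂ν = if q = j then 1 else 0 := by
  split_ifs with c
  · simp [c, w_cm]
  obtain ⟨l, hl⟩ : ∃ l, q.testBit l ≠ j.testBit l := by
    by_contra! h; exact c (Nat.eq_of_testBit_eq h)
  have e : ∀ i : ℕ, w i (Pi.single l 1) = (-1) ^ (i.testBit l).toNat := fun i => by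
    rw [w_eq (L := i + l + 1) (Nat.lt_two_pow_self.trans_le (Nat.pow_le_pow_right two_pos (by omega))),
      prod_eq_single l (fun b _ hb => by simp [r, hb]) (by simp)]
    congr 1
    simp only [r, Pi.single_eq_same]
    rw [← Complex.exp_pi_mul_I, show (1 : ZMod (two l)).val = 1 from rfl]
    congr 1; push_cast; ring
  have := shift (m := two) (fun z => w q z * conj (w j z)) (Pi.single l 1)
  simp only [w_sub, e, map_mul, map_pow, map_neg, map_one] at this
  have s : ∀ z, w q z * (-1) ^ (q.testBit l).toNat * (conj (w j z) * (-1) ^ (j.testBit l).toNat) =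
      -(w q z * conj (w j z)) := fun z => by
    revert hl; cases q.testBit l <;> cases j.testBit l <;> simp
  simp only [s, integral_neg] at this
  linear_combination (-1 / 2) * this

noncomputable def hat (g : X → ℂ) (q : ℕ) : ℂ := ∫ z, g z * conj (w q z) ∂ν

lemma iw {g : X → ℂ} {L : ℕ} (h : dep L g) (q : ℕ) : Integrable (fun z => g z * conj (w q z)) ν :=
  (dep2 (fun a b => a * conj b) (h.mono (by omega)) (wd q L)).int

lemma hat_sum (s : Finset ℕ) (c : ℕ → ℂ) (j : ℕ) :
    hat (fun z => ∑ q ∈ s, c q * w q z) j = if j ∈ s then c j else 0 := by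
  simp only [hat, sum_mul, mul_assoc]
  rw [integral_finsetSum _ fun q _ => (iw (wd q 0) j).const_mul _]
  simp [integral_const_mul, orth]

lemma sd (s : Finset ℕ) (c : ℕ → ℂ) : dep (s.sup id) fun z => ∑ q ∈ s, c q * w q z :=
  dep_sum _ fun q hq => dep1 (c q * ·) ((wd q 0).mono (le_sup (f := id) hq))

lemma parseval (s : Finset ℕ) (c : ℕ → ℂ) :
    ∫ z, ‖∑ q ∈ s, c q * w q z‖ ^ 2 ∂ν = ∑ q ∈ s, ‖c q‖ ^ 2 := by
  have : ∀ z, ((‖∑ q ∈ s, c q * w q z‖ ^ 2 : ℝ) : ℂ) =
      ∑ j ∈ s, conj (c j) * ((∑ q ∈ s, c q * w q z) * conj (w j z)) := fun z => by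
    push_cast
    rw [← Complex.mul_conj', map_sum, mul_sum]
    simp [mul_left_comm]
  apply Complex.ofReal_injective
  rw [← integral_complex_ofReal]
  simp only [this]
  rw [integral_finsetSum _ fun q _ => (iw (sd s c) q).const_mul _]
  push_cast
  refine sum_congr rfl fun j hj => ?_
  rw [integral_const_mul, ← Complex.conj_mul']
  exact congrArg _ ((hat_sum s c j).trans (if_pos hj))

noncomputable def conv (K g : X → ℂ) (x : X) : ℂ := ∫ z, K (x - z) * g z ∂ν

variable {K g : X → ℂ} {L : ℕ}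

lemma conv_sum (h : dep L g) (s : Finset ℕ) (a : ℕ → ℂ) (x : X) :
    conv (fun z => ∑ q ∈ s, a q * w q z) g x = ∑ q ∈ s, a q * hat g q * w q x := by
  simp only [conv, sum_mul, w_sub]
  have : ∀ q z, a q * (w q x * conj (w q z)) * g z = a q * w q x * (g z * conj (w q z)) :=
    fun q z => by ring
  simp only [this]
  rw [integral_finsetSum _ fun q _ => (iw h q).const_mul _]
  exact sum_congr rfl fun q _ => by rw [integral_const_mul, hat]; ring

lemma conv_avg (hK : dep L K) (h : dep L g) (x : X) :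
    conv K g x = (2 ^ L : ℂ)⁻¹ * ∑ y : Y two L, K (ex y) * g (x - ex y) := by
  rw [conv, avg (dep2 (· * ·) (dep_sub hK x).2 h) x, M2]
  simp

lemma inv (h : dep L g) (x : X) : ∑ q ∈ range (2 ^ L), hat g q * w q x = g x := by
  have := conv_sum h (range (2 ^ L)) 1 x
  simp only [Pi.one_apply, one_mul, D_pow] at this
  rw [← this, conv_avg (dep1 (fun a : ℝ => (2 ^ L * a : ℂ)) (χ_dep L)) h, sum_eq_single 0]
  · rw [show ex (0 : Y two L) = 0 by ext; simp [ex]]; simp [χ]
  · intro y _ hy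
    obtain ⟨l, hl⟩ := Function.ne_iff.1 hy
    rw [χ, if_neg fun c => hl (by simpa using c l l.2)]; simp
  · simp

lemma hat_zero (h : dep L g) {q : ℕ} (hq : 2 ^ L ≤ q) : hat g q = 0 := by
  rw [← funext (inv h), hat_sum, if_neg (by simpa)]

lemma hat_sub {k : X → ℂ} (h : dep L g) (h' : dep L k) (q : ℕ) :
    hat (fun z => g z - k z) q = hat g q - hat k q := by
  simp only [hat, sub_mul]; exact integral_sub (iw h q) (iw h' q)

lemma bessel (h : dep L g) {i : ℕ} (hi : i ≤ 2 ^ L) :
    ∫ z, ‖∑ q ∈ range i, hat g q * w q z‖ ^ 2 ∂ν ≤ ∫ z, ‖g z‖ ^ 2 ∂ν := by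
  conv_rhs => rw [← funext (inv h)]
  rw [parseval, parseval]
  exact sum_le_sum_of_subset_of_nonneg (range_mono hi) fun _ _ _ => by positivity

lemma iχ (t : ℕ) : ∫ z, χ t z ∂ν = (2 ^ t)⁻¹ := by
  have := parseval (range (2 ^ t)) 1
  simp only [Pi.one_apply, one_mul, D_pow] at this
  have e : ∀ z, ‖(2 ^ t * χ t z : ℂ)‖ ^ 2 = (2 ^ t) ^ 2 * χ t z := fun z => by
    unfold χ; split_ifs <;> simp
  simp only [e, integral_const_mul] at this
  simp at this
  field_simp at this ⊢
  exact this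

lemma ravg {φ : X → ℝ} (h : dep L φ) : ∑ y : Y two L, φ (ex y) = 2 ^ L * ∫ z, φ z ∂ν := by
  have := avg (dep1 (fun a : ℝ => (a : ℂ)) h) 0
  have e : ∀ z : X, 0 - z = z := fun z => funext fun l => by simp
  simp only [e, integral_complex_ofReal, M2] at this
  apply Complex.ofReal_injective
  push_cast at this ⊢
  rw [this]; simp

end Pool.Agent.H.MP_332aa0_an
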