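import Pool.Agent.H.MP_332aa0_an.A

set_option autoImplicit false
set_option maxHeartbeats 400000
open MeasureTheory ProbabilityTheory Finset Filter
open scoped ENNReal ComplexConjugate

namespace Pool.Agent.H.MP_332aa0_an

open Pool.Agent.H.MP_c47ae4_an

variable {a : ℕ → ℝ} {p : ℝ}

lemma tele (m : Monotone a) (a0 : 0 ≤ a 0) (T U : ℕ) :
    ∑ q ∈ range (T * U), (a q - a (T * (q / T))) ≤ T * a (T * U) := by
  induction U with
  | zero => simpa using mul_nonneg T.cast_nonneg a0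
  | succ U ih =>
    rw [mul_add, mul_one, sum_range_add]
    have : ∑ v ∈ range T, (a (T * U + v) - a (T * ((T * U + v) / T))) ≤
        ∑ _v ∈ range T, (a (T * U + T) - a (T * U)) := sum_le_sum fun v hv => by
      have hv := mem_range.1 hv
      rw [Nat.mul_add_div (by omega), Nat.div_eq_of_lt hv, add_zero]
      linarith [m (show T * U + v ≤ T * U + T by omega)]
    simp only [sum_const, card_range, nsmul_eq_mul] at this
    linarith

lemma off {t L : ℕ} (h : t ≤ L) {z : X} (hz : χ t z = 0) (c : ℕ → ℂ) :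
    ∑ q ∈ range (2 ^ L), c (q / 2 ^ t) * w q z = 0 := by
  obtain ⟨d, rfl⟩ := Nat.exists_eq_add_of_le h
  rw [pow_add, sum_mul_range]
  refine sum_eq_zero fun u _ => ?_
  rw [sum_congr rfl fun v hv => show _ = c u * w (2 ^ t * u) z * w v z by
    rw [Nat.mul_add_div (by positivity), Nat.div_eq_of_lt (mem_range.1 hv), add_zero,
      w_split (mem_range.1 hv), mul_assoc], ← mul_sum, D_pow, hz]
  simp

lemma young {l x : ℝ} (p0 : 0 < p) (p2 : p ≤ 2) (l0 : 0 < l) (x0 : 0 ≤ x) :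
    x ^ p ≤ l ^ p + l ^ (p - 2) * x ^ 2 := by
  rcases le_total x l with c | c
  · exact (Real.rpow_le_rpow x0 c p0.le).trans (le_add_of_nonneg_right (by positivity))
  · have : x ^ p = x ^ (p - 2) * x ^ 2 := by
      rw [← Real.rpow_two, ← Real.rpow_add (l0.trans_le c)]; simp
    rw [this]
    refine le_add_of_nonneg_of_le (by positivity) ?_
    exact mul_le_mul_of_nonneg_right (Real.rpow_le_rpow_of_nonpos l0 c (by linarith)) (by positivity)

lemma psum (p0 : 0 < p) (p1 : p ≤ 1) {ι : Type} (s : Finset ι) (z : ι → ℂ) :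
    ‖∑ i ∈ s, z i‖ ^ p ≤ ∑ i ∈ s, ‖z i‖ ^ p :=
  (Real.rpow_le_rpow (norm_nonneg _) (norm_sum_le _ _) p0.le).trans
    (le_sum_of_subadditive_on_pred (fun a : ℝ => a ^ p) (0 ≤ ·) (by simp [p0.ne'])
      (fun a b ha hb => Real.rpow_add_le_add_rpow ha hb p0.le p1) (fun a b => add_nonneg) _
      fun _ _ => norm_nonneg _)

lemma kerB (p0 : 0 < p) (p1 : p ≤ 1) (a0 : ∀ q, 0 ≤ a q) (a1 : ∀ q, a q ≤ 1) {L : ℕ} {l : ℕ → ℝ}
    (l0 : ∀ t, 0 < l t) (hl : ∀ t < L,
      ∑ q ∈ range (2 ^ L), (a q - a (2 ^ (t + 1) * (q / 2 ^ (t + 1)))) ^ 2 ≤ l t ^ 2 / 2 ^ t) :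
    ∫ z, ‖∑ q ∈ range (2 ^ L), a q * w q z‖ ^ p ∂ν ≤
      (2 ^ L) ^ (p - 1) + ∑ t ∈ range L, 2 * l t ^ p / 2 ^ t := by
  let B : ℕ → X → ℂ := fun t z =>
    ∑ q ∈ range (2 ^ L), ((a q - a (2 ^ (t + 1) * (q / 2 ^ (t + 1))) : ℝ) : ℂ) * w q z
  have i1 : ∀ t, Integrable (χ t) ν := fun t => (χ_dep t).int
  have i2 : ∀ t, Integrable (fun z => ‖B t z‖ ^ 2) ν := fun t => (dep1 (‖·‖ ^ 2) (sd _ _)).int
  have i3 : ∀ t, Integrable (fun z => l t ^ p * χ t z + l t ^ (p - 2) * ‖B t z‖ ^ 2) ν := fun t =>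
    ((i1 t).const_mul _).add ((i2 t).const_mul _)
  refine (integral_mono (g := fun z => (2 ^ L) ^ p * χ L z +
    ∑ t ∈ range L, (l t ^ p * χ t z + l t ^ (p - 2) * ‖B t z‖ ^ 2)) (dep1 (‖·‖ ^ p) (sd _ _)).int
    (((i1 L).const_mul _).add (integrable_finsetSum _ fun t _ => i3 t)) fun z => ?_).trans ?_
  · have n : ∀ t, 0 ≤ l t ^ p * χ t z + l t ^ (p - 2) * ‖B t z‖ ^ 2 := fun t => by
      have := l0 t; have := χ0 t z; positivity
    by_cases c : ∀ t < L, z t = 0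
    · refine le_add_of_le_of_nonneg ?_ (sum_nonneg fun t _ => n t)
      rw [χ, if_pos c, mul_one]
      refine Real.rpow_le_rpow (norm_nonneg _) ((norm_sum_le_of_le _ (n := fun _ => 1)
        fun q _ => ?_).trans (by simp)) p0.le
      simpa [w_norm, abs_of_nonneg (a0 q)] using a1 q
    push Not at c
    have c' : ∃ t, z t ≠ 0 := c.imp fun _ h => h.2
    have tL : Nat.find c' < L := c.elim fun t h => (Nat.find_min' c' h.2).trans_lt h.1
    refine le_add_of_nonneg_of_le (by have := χ0 L z; positivity)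
      (le_trans ?_ (single_le_sum (fun t _ => n t) (mem_range.2 tL)))
    rw [χ, if_pos fun s hs => by simpa using Nat.find_min c' hs, mul_one]
    refine le_of_eq_of_le (congrArg (‖·‖ ^ p) ?_)
      (young p0 (by linarith) (l0 _) (norm_nonneg (B (Nat.find c') z)))
    have := off (t := Nat.find c' + 1) tL (z := z) (if_neg fun h => Nat.find_spec c' (h _ (by simp)))
      fun u => a (2 ^ (Nat.find c' + 1) * u)
    simp only [B, Complex.ofReal_sub, sub_mul, sum_sub_distrib, this, sub_zero]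
  rw [integral_add ((i1 L).const_mul _) (integrable_finsetSum _ fun t _ => i3 t),
    integral_finsetSum _ fun t _ => i3 t, integral_const_mul, iχ,
    Real.rpow_sub_one (by positivity), div_eq_mul_inv]
  refine add_le_add_right (sum_le_sum fun t ht => ?_) _
  rw [integral_add ((i1 t).const_mul _) ((i2 t).const_mul _), integral_const_mul, integral_const_mul,
    iχ, parseval]
  simp only [Complex.norm_real, Real.norm_eq_abs, sq_abs]
  have := l0 t
  refine (add_le_add_right (mul_le_mul_of_nonneg_left (hl t (mem_range.1 ht)) (by positivity))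
    _).trans_eq ?_
  rw [Real.rpow_sub this, Real.rpow_two]
  field_simp
  ring

lemma convp (p0 : 0 < p) (p1 : p ≤ 1) {K g : X → ℂ} {L : ℕ} (hK : dep L K) (h : dep L g) :
    ∫ x, ‖conv K g x‖ ^ p ∂ν ≤ (2 ^ L) ^ (1 - p) * (∫ z, ‖g z‖ ^ p ∂ν) * ∫ z, ‖K z‖ ^ p ∂ν := by
  have d : ∀ y : Y two L, dep L fun x => ‖K (ex y)‖ ^ p * ‖g (x - ex y)‖ ^ p := fun y =>
    dep1 (fun a => ‖K (ex y)‖ ^ p * ‖a‖ ^ p) (dep_sub h _).1
  simp only [conv_avg hK h]
  refine (integral_mono (g := fun x => ((2 ^ L) ^ p)⁻¹ *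
    ∑ y : Y two L, ‖K (ex y)‖ ^ p * ‖g (x - ex y)‖ ^ p) (dep1 (fun a : ℂ => ‖(2 ^ L : ℂ)⁻¹ * a‖ ^ p)
      (dep_sum _ fun y _ => dep1 (K (ex y) * ·) (dep_sub h _).1)).int
      ((dep_sum _ fun y _ => d y).int.const_mul _) fun x => ?_).trans_eq ?_
  · simp only [norm_mul, norm_inv, norm_pow, Complex.norm_ofNat]
    rw [Real.mul_rpow (by positivity) (by positivity), Real.inv_rpow (by positivity)]
    gcongr
    refine (psum p0 p1 _ _).trans_eq (sum_congr rfl fun y _ => ?_)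
    rw [norm_mul, Real.mul_rpow (by positivity) (by positivity)]
  rw [integral_const_mul, integral_finsetSum _ fun y _ => (d y).int]
  simp only [integral_const_mul, shift (m := two) fun z => ‖g z‖ ^ p]
  rw [← sum_mul, ravg (dep1 (‖·‖ ^ p) hK), Real.rpow_sub (by positivity), Real.rpow_one]
  ring

lemma small (p0 : 0 < p) (p1 : p < 1) : ∃ C > 0, ∀ {a : ℕ → ℝ} {σ V : ℝ} {L : ℕ} {g : X → ℂ},
    0 < σ → 0 < V → 0 ≤ a 0 → (∀ q, a q ≤ a (q + 1) ∧ a (q + 1) ≤ a q + σ ∧ a q ≤ 1) →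
    a (2 ^ L) ≤ V → dep L g → ∫ x, ‖∑ q ∈ range (2 ^ L), a q * hat g q * w q x‖ ^ p ∂ν ≤
      (2 ^ L) ^ (1 - p) * (∫ z, ‖g z‖ ^ p ∂ν) *
        ((2 ^ L) ^ (p - 1) + C * (σ ^ (1 - p) * V) ^ (p / 2)) := by
  obtain ⟨ρ, hρ⟩ : ∃ ρ : ℝ, ρ = 2 ^ (1 + (1 - p) / 2 : ℝ) := ⟨_, rfl⟩
  have r0 : 0 < ρ := by rw [hρ]; positivity
  have r2 : ρ ^ 2 = 4 * 2 ^ (1 - p) := by
    rw [hρ, ← Real.rpow_mul_natCast (by norm_num), show ((1 + (1 - p) / 2) * (2 : ℕ) : ℝ) = 2 + (1 - p) by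
      push_cast; ring, Real.rpow_add two_pos]
    norm_num
  have r1 : ρ ^ p / 2 < 1 := by
    rw [hρ, ← Real.rpow_mul (by norm_num), div_lt_one two_pos]
    exact (Real.rpow_lt_rpow_of_exponent_lt one_lt_two (by nlinarith)).trans_eq (Real.rpow_one 2)
  have r3 : 0 < ρ ^ p / 2 := by positivity
  refine ⟨4 * (1 - ρ ^ p / 2)⁻¹, by have := sub_pos.2 r1; positivity, ?_⟩
  intro a σ V L g s0 V0 a0 ha hV hg
  have m : Monotone a := monotone_nat_of_le_succ fun q => (ha q).1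
  have st : ∀ n d : ℕ, a (n + d) - a n ≤ d * σ := fun n d => by
    induction d with
    | zero => simp
    | succ d ih => rw [← add_assoc]; push_cast; linarith [(ha (n + d)).2.1]
  simp only [← conv_sum hg]
  refine (convp p0 p1.le (dep_sum _ fun q hq => dep1 ((a q : ℂ) * ·) (w_dep (mem_range.1 hq))) hg).trans
    (mul_le_mul_of_nonneg_left ?_ (mul_nonneg (by positivity) (integral_nonneg fun _ => by positivity)))
  refine (kerB p0 p1.le (fun q => a0.trans (m q.zero_le)) (fun q => (ha q).2.2)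
    (l := fun t => ρ ^ (t + 1) * √(σ ^ (1 - p) * V)) (fun t => by positivity) fun t ht => ?_).trans ?_
  · obtain ⟨d, rfl⟩ := Nat.exists_eq_add_of_le (Nat.succ_le_of_lt ht)
    have b : ∀ q, (a q - a (2 ^ (t + 1) * (q / 2 ^ (t + 1)))) ^ 2 ≤
        (2 ^ (t + 1) * σ) ^ (1 - p) * (a q - a (2 ^ (t + 1) * (q / 2 ^ (t + 1)))) := fun q => by
      have n := sub_nonneg.2 (m (Nat.mul_div_le q (2 ^ (t + 1))))
      rw [sq]
      refine mul_le_mul_of_nonneg_right ((Real.self_le_rpow_of_le_one n (by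
        linarith [(ha q).2.2, m (Nat.zero_le (2 ^ (t + 1) * (q / 2 ^ (t + 1))))])
        (y := 1 - p) (by linarith)).trans (Real.rpow_le_rpow n ?_ (by linarith))) n
      have := st (2 ^ (t + 1) * (q / 2 ^ (t + 1))) (q % 2 ^ (t + 1))
      rw [Nat.div_add_mod] at this
      refine this.trans (mul_le_mul_of_nonneg_right ?_ s0.le)
      exact_mod_cast (Nat.mod_lt _ (by positivity)).le
    refine (sum_le_sum fun q _ => b q).trans ?_
    rw [← mul_sum, pow_add 2 t.succ] at *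
    refine (mul_le_mul_of_nonneg_left ((tele m a0 _ _).trans (mul_le_mul_of_nonneg_left hV
      (by positivity))) (by positivity)).trans ?_
    rw [mul_pow, Real.sq_sqrt (by positivity), ← pow_mul, mul_comm (t + 1) 2, pow_mul, r2, mul_pow,
      Real.mul_rpow (by positivity) s0.le, ← Real.rpow_pow_comm (by norm_num),
      show (4 : ℝ) = 2 * 2 by norm_num, mul_pow, le_div_iff₀ (by positivity)]
    push_cast
    have : (2 : ℝ) ^ t ≤ 2 ^ (t + 1) := by gcongr; exacts [one_le_two, by omega]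
    calc _ = (2 ^ (1 - p)) ^ (t + 1) * σ ^ (1 - p) * V * 2 ^ (t + 1) * 2 ^ t := by
          rw [Nat.succ_eq_add_one]; ring
      _ ≤ (2 ^ (1 - p)) ^ (t + 1) * σ ^ (1 - p) * V * 2 ^ (t + 1) * 2 ^ (t + 1) := by gcongr
      _ = _ := by ring
  have e : ∀ t : ℕ, 2 * (ρ ^ (t + 1) * √(σ ^ (1 - p) * V)) ^ p / 2 ^ t =
      4 * (ρ ^ p / 2) * (σ ^ (1 - p) * V) ^ (p / 2) * (ρ ^ p / 2) ^ t := fun t => by
    rw [Real.mul_rpow (by positivity) (by positivity), ← Real.rpow_pow_comm r0.le,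
      Real.sqrt_eq_rpow, ← Real.rpow_mul (by positivity), div_pow, show 1 / 2 * p = p / 2 by ring]
    ring
  simp only [e, ← mul_sum]
  have g1 : ∑ i ∈ range L, (ρ ^ p / 2) ^ i ≤ (1 - ρ ^ p / 2)⁻¹ :=
    tsum_geometric_of_lt_one r3.le r1 ▸ (summable_geometric_of_lt_one r3.le r1).sum_le_tsum _
      fun _ _ => by positivity
  rw [mul_right_comm 4 (1 - ρ ^ p / 2)⁻¹]
  gcongr
  linarith

end Pool.Agent.H.MP_332aa0_an
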