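import Pool.Agent.H.MP_332aa0_an.B

set_option autoImplicit false
set_option maxHeartbeats 400000
open MeasureTheory ProbabilityTheory Finset Filter
open scoped ENNReal ComplexConjugate

namespace Pool.Agent.H.MP_332aa0_an

open Pool.Agent.H.MP_c47ae4_an

noncomputable def Ec (t : ℕ) (g : X → ℂ) : X → ℂ := conv (fun z => 2 ^ t * χ t z) g

noncomputable def Er (t : ℕ) (g : X → ℂ) (x : X) : ℝ := ∫ z, 2 ^ t * χ t (x - z) * ‖g z‖ ∂ν

variable {g Φ : X → ℂ} {N t : ℕ}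

lemma kd (t : ℕ) : dep t fun z => (2 ^ t * χ t z : ℂ) := dep1 (fun a : ℝ => (2 ^ t * a : ℂ)) (χ_dep t)

lemma Ec_dep : dep t (Ec t g) := fun x y e => integral_congr_ae (.of_forall fun z => by
  simp only [(dep_sub (χ_dep t) z).1 x y e])

lemma Er_eq (x : X) : (Er t g x : ℂ) = Ec t (fun z => ‖g z‖) x := by
  simp [Er, Ec, conv, ← integral_complex_ofReal]

lemma Er_dep : dep t (Er t g) := fun x y e => Complex.ofReal_injective (by
  rw [Er_eq, Er_eq, Ec_dep x y e])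

lemma Ec_le (i : ℕ) (x : X) : ‖Ec t (fun z => g z * conj (w i z)) x‖ ≤ Er t g x :=
  (norm_integral_le_integral_norm _).trans_eq (integral_congr_ae (.of_forall fun z => by
    simp [w_norm, abs_of_nonneg (χ0 _ _)]))

lemma Er_succ (h : dep N g) (x : X) : Er (t + 1) g x ≤ 2 * Er t g x := by
  have i : ∀ t, Integrable (fun z => 2 ^ t * χ t (x - z) * ‖g z‖) ν := fun t =>
    (dep2 (fun a b => 2 ^ t * a * ‖b‖) ((dep_sub (χ_dep t) x).2.mono (t.le_add_right N))
      (h.mono (N.le_add_left t))).int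
  rw [Er, Er, ← integral_const_mul]
  refine integral_mono (i _) ((i _).const_mul _) fun z => ?_
  have : χ (t + 1) (x - z) ≤ χ t (x - z) := by
    unfold χ; split_ifs with a b
    exacts [le_rfl, (b fun l hl => a l (by omega)).elim, zero_le_one, le_rfl]
  calc _ ≤ 2 ^ (t + 1) * χ t (x - z) * ‖g z‖ := by gcongr
    _ = _ := by ring

lemma Er_zero (x : X) : Er 0 g x = ∫ z, ‖g z‖ ∂ν := by simp [Er, χ]

lemma Er_top (h : dep N g) (x : X) : Er N g x = ‖g x‖ := Complex.ofReal_injective (by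
  have h' := dep1 (fun a : ℂ => (‖a‖ : ℂ)) h
  have := conv_sum h' (range (2 ^ N)) 1 x
  simp only [Pi.one_apply, one_mul, D_pow, inv h'] at this
  rw [Er_eq, ← this]; rfl)

lemma pull (h : dep N g) (ht : t ≤ N) (hΦ : dep t Φ) :
    ∫ x, Φ x * Ec t g x ∂ν = ∫ x, Φ x * g x ∂ν := by
  simp only [Ec, conv_avg ((kd t).mono ht) h, mul_sum]
  rw [integral_finsetSum _ fun y _ => (dep2 (fun a b : ℂ => a * ((2 ^ N)⁻¹ * (2 ^ t * χ t (ex y) * b)))
    (hΦ.mono ht) (dep_sub h _).1).int]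
  have e : ∀ y : X, ∫ x, Φ x * ((2 ^ N)⁻¹ * (2 ^ t * χ t y * g (x - y))) ∂ν =
      (2 ^ N)⁻¹ * 2 ^ t * (∫ x, Φ x * g x ∂ν) * χ t y := fun y => by
    unfold χ
    split_ifs with c
    · rw [← shift (m := two) (fun x => Φ x * g x) y, ← integral_const_mul, ← integral_mul_const]
      refine integral_congr_ae (.of_forall fun x => ?_)
      simp only [hΦ (x - y) x fun l hl => by simp [c l hl]]
      push_cast; ring
    · simp
  simp only [e, ← mul_sum, ← Complex.ofReal_sum, ravg ((χ_dep t).mono ht), iχ]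
  push_cast
  field_simp

lemma Dform (t i : ℕ) : ∃ Ψ : X → ℂ, dep t Ψ ∧ ∀ s, χ t s = 0 → ∑ q ∈ range i, w q s = w i s * Ψ s := by
  have v : i % 2 ^ t < 2 ^ t := Nat.mod_lt _ (by positivity)
  refine ⟨fun s => conj (w (i % 2 ^ t) s) * ∑ q ∈ range (i % 2 ^ t), w q s, dep2 (conj · * ·)
    (w_dep v) (dep_sum _ fun q hq => w_dep ((mem_range.1 hq).trans v)), fun s hs => ?_⟩
  conv_lhs => rw [← Nat.div_add_mod i (2 ^ t), sum_range_add, sum_mul_range]
  rw [sum_eq_zero fun u _ => by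
    rw [sum_congr rfl fun q hq => w_split (mem_range.1 hq) u s, ← mul_sum, D_pow, hs]; simp,
    zero_add, sum_congr rfl fun q hq => w_split ((mem_range.1 hq).trans v) _ s, ← mul_sum]
  nth_rw 3 [← Nat.div_add_mod i (2 ^ t)]
  rw [w_split v, mul_assoc, ← mul_assoc (w (i % 2 ^ t) s), w_cm, one_mul]

lemma weak (h : dep N g) {l : ℝ} (hl : ∫ z, ‖g z‖ ∂ν ≤ l) : ∃ H : X → ℝ, dep N H ∧ (∀ x, 0 ≤ H x) ∧
    ∫ x, H x ∂ν = ∫ z, ‖g z‖ ∂ν ∧ ∀ i ≤ 2 ^ N, ∃ G : X → ℂ, dep N G ∧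
      ∫ x, ‖G x‖ ^ 2 ∂ν ≤ 2 * l * ∫ z, ‖g z‖ ∂ν ∧
      ∀ x, H x ≤ l → ‖g x‖ ≤ l ∧ ∑ q ∈ range i, hat g q * w q x = G x := by
  classical
  let o : ℕ → X → ℝ := fun t x => if l < Er t g x ∧ ∀ s < t, Er s g x ≤ l then 1 else 0
  have od : ∀ t, dep t (o t) := fun t x y e => if_congr (and_congr (by rw [Er_dep x y e])
    (forall₂_congr fun s hs => by rw [Er_dep.mono hs.le x y e])) rfl rfl
  have l0 : 0 ≤ l := (integral_nonneg fun _ => norm_nonneg _).trans hl
  have cs : ∀ x, ((∀ t ∈ range (N + 1), o t x = 0) ∧ ‖g x‖ ≤ l) ∨ ∃ τ ∈ range (N + 1),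
      (∀ t, o t x = if t = τ then 1 else 0) ∧ l < Er τ g x ∧ Er τ g x ≤ 2 * l := fun x => by
    by_cases c : ∃ t, t ≤ N ∧ l < Er t g x
    · have c' : ∃ t, l < Er t g x := c.imp fun _ h => h.2
      refine .inr ⟨Nat.find c', mem_range.2 (c.elim fun t h => Nat.lt_succ_of_le
        ((Nat.find_min' c' h.2).trans h.1)), fun t => if_congr ?_ rfl rfl, Nat.find_spec c', ?_⟩
      · rw [eq_comm, Nat.find_eq_iff]; simp
      · have := fun s => Nat.find_min c' (m := s)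
        generalize Nat.find c' = τ at this
        rcases τ with _ | τ
        · rw [Er_zero]; linarith
        · linarith [Er_succ (t := τ) h x, not_lt.1 (this τ (by omega))]
    · push Not at c
      exact .inl ⟨fun t ht => if_neg fun a => (c t (Nat.le_of_lt_succ (mem_range.1 ht))).not_gt a.1,
        Er_top h x ▸ c N le_rfl⟩
  have lt : ∀ {t}, t ∈ range (N + 1) → t ≤ N := fun ht => Nat.le_of_lt_succ (mem_range.1 ht)
  let H : X → ℝ := fun x => ‖g x‖ + ∑ t ∈ range (N + 1), o t x * (Er t g x - ‖g x‖)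
  have d1 : ∀ t ∈ range (N + 1), dep N fun x => o t x * (Er t g x - ‖g x‖) := fun t ht =>
    dep2 (· * ·) ((od t).mono (lt ht)) (dep2 (· - ‖·‖) (Er_dep.mono (lt ht)) h)
  have Hd : dep N H := dep2 (‖·‖ + ·) h (dep_sum _ d1)
  have Hi : ∫ x, H x ∂ν = ∫ z, ‖g z‖ ∂ν := by
    rw [integral_add (dep1 (‖·‖) h).int (dep_sum _ d1).int, integral_finsetSum _ fun t ht => (d1 t ht).int,
      sum_eq_zero fun t ht => ?_, add_zero]
    apply Complex.ofReal_injective
    rw [← integral_complex_ofReal]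
    have o' := dep1 (fun a : ℝ => (a : ℂ)) (od t)
    have h' := dep1 (fun a : ℂ => (‖a‖ : ℂ)) h
    simp only [Complex.ofReal_mul, Complex.ofReal_sub, Er_eq, mul_sub]
    rw [integral_sub (dep2 (· * ·) o' Ec_dep).int (dep2 (· * ·) (o'.mono (lt ht)) h').int,
      pull h' (lt ht) o']
    simp
  have H2 : ∀ x, 0 ≤ H x ∧ H x ≤ 2 * l := fun x => by
    rcases cs x with ⟨a, b⟩ | ⟨τ, hτ, a, b, c⟩
    · simp only [H]
      rw [sum_eq_zero fun t ht => by rw [a t ht, zero_mul]]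
      constructor <;> linarith [norm_nonneg (g x)]
    · simp only [H, a, ite_mul, one_mul, zero_mul, sum_ite_eq', if_pos hτ]
      constructor <;> linarith
  refine ⟨H, Hd, fun x => (H2 x).1, Hi, fun i hi => ?_⟩
  let k : ℕ → X → ℂ := fun t x => o t x * (w i x * Ec t (fun z => g z * conj (w i z)) x - g x)
  have wi : dep (N + 1) (w i) := w_dep (hi.trans_lt (Nat.pow_lt_pow_right one_lt_two (by omega)))
  have h1 := h.mono N.le_succ
  have d2 : ∀ t ∈ range (N + 1), dep (N + 1) (k t) := fun t ht =>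
    dep2 (fun a : ℝ => ((a : ℂ) * ·)) ((od t).mono (mem_range.1 ht).le) (dep2 (· - ·)
      (dep2 (· * ·) wi (Ec_dep.mono (mem_range.1 ht).le)) h1)
  have Gd : dep (N + 1) fun x => g x + ∑ t ∈ range (N + 1), k t x := dep2 (· + ·) h1 (dep_sum _ d2)
  refine ⟨fun x => ∑ q ∈ range i, hat (fun x => g x + ∑ t ∈ range (N + 1), k t x) q * w q x,
    dep_sum _ fun q hq => dep1 (_ * ·) (w_dep ((mem_range.1 hq).trans_le hi)),
    (bessel Gd (hi.trans (Nat.pow_le_pow_right two_pos N.le_succ))).trans ?_, fun x hx => ?_⟩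
  · rw [← Hi, ← integral_const_mul]
    refine integral_mono (dep1 (‖·‖ ^ 2) Gd).int (Hd.int.const_mul _) fun x => ?_
    have : ‖g x + ∑ t ∈ range (N + 1), k t x‖ ≤ H x := by
      rcases cs x with ⟨a, b⟩ | ⟨τ, hτ, a, b, c⟩
      · simp only [H, k]
        rw [sum_eq_zero fun t ht => by rw [a t ht]; simp, sum_eq_zero fun t ht => by rw [a t ht]; simp]
        simp
      · simp only [H, k, a, apply_ite Complex.ofReal, ite_mul, one_mul, zero_mul, sum_ite_eq', if_pos hτ,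
          Complex.ofReal_one, Complex.ofReal_zero]
        simpa [w_norm] using Ec_le (g := g) (t := τ) i x
    have := H2 x
    nlinarith [norm_nonneg (g x + ∑ t ∈ range (N + 1), k t x)]
  rcases cs x with ⟨a, b⟩ | ⟨τ, hτ, a, b, c⟩
  swap
  · simp only [H, a, ite_mul, one_mul, zero_mul, sum_ite_eq', if_pos hτ] at hx
    linarith
  refine ⟨b, ?_⟩
  have e := fun {g : X → ℂ} (h : dep (N + 1) g) => conv_sum h (range i) 1 x
  simp only [Pi.one_apply, one_mul] at e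
  have D : dep (N + 1) fun z => ∑ q ∈ range i, w q (x - z) := dep_sum _ fun q hq =>
    (dep_sub (w_dep ((mem_range.1 hq).trans_le (hi.trans (Nat.pow_le_pow_right two_pos N.le_succ)))) x).2
  beta_reduce
  rw [← e h1, ← e Gd]
  simp only [conv, mul_add]
  rw [integral_add (dep2 (· * ·) D h1).int (dep2 (· * ·) D (dep_sum _ d2)).int, left_eq_add]
  simp only [mul_sum (range (N + 1))]
  rw [integral_finsetSum _ fun t ht => (dep2 (· * ·) D (d2 t ht)).int]
  refine sum_eq_zero fun t ht => ?_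
  obtain ⟨Ψ, Ψd, hΨ⟩ := Dform t i
  have P : dep t fun z => o t z * w i x * Ψ (x - z) :=
    dep2 (fun a : ℝ => (a * w i x * ·)) (od t) (dep_sub Ψd x).2
  have g' : dep (N + 1) fun z => g z * conj (w i z) := dep2 (· * conj ·) h1 wi
  rw [← sub_eq_zero.2 (pull g' (mem_range.1 ht).le P), ← integral_sub (dep2 (· * ·) P Ec_dep).int
    (dep2 (· * ·) (P.mono (mem_range.1 ht).le) g').int]
  refine integral_congr_ae (.of_forall fun z => ?_)
  by_cases c : o t z = 0
  · simp [k, c]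
  simp only [k]
  rw [hΨ (x - z) (if_neg fun e => c ((od t z x fun l hl => (sub_eq_zero.1 (e l hl)).symm).trans (a t ht))),
    w_sub]
  linear_combination o t z * w i x * Ψ (x - z) * Ec t (fun z => g z * conj (w i z)) z * w_cm i z

lemma weak' (h : dep N g) {l : ℝ} (l0 : 0 < l) {k : ℕ} (hk : k ≤ 2 ^ N) {s : ℕ → ℝ}
    (s0 : ∀ i, 0 ≤ s i) (s1 : ∑ i ∈ range k, s i ≤ 1) : ∃ Ψ : X → ℝ, Integrable Ψ ν ∧ (∀ x, 0 ≤ Ψ x) ∧
    ∫ x, Ψ x ∂ν ≤ 3 * ∫ z, ‖g z‖ ∂ν ∧ ∀ x,
      2 * l < ‖∑ i ∈ range k, s i * (g x - ∑ q ∈ range i, hat g q * w q x)‖ → l ≤ Ψ x := by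
  have g0 : 0 ≤ ∫ z, ‖g z‖ ∂ν := integral_nonneg fun _ => norm_nonneg _
  rcases le_total l (∫ z, ‖g z‖ ∂ν) with hl | hl
  · exact ⟨fun _ => l, integrable_const _, fun _ => l0.le, by simp; linarith, fun _ _ => le_rfl⟩
  obtain ⟨H, Hd, H0, Hi, hG⟩ := weak h hl
  choose! G Gd Gi hG using hG
  have lt : ∀ {i}, i ∈ range k → i ≤ 2 ^ N := fun hi => (mem_range.1 hi).le.trans hk
  have i1 : ∀ i ∈ range k, Integrable (fun x => s i / l * ‖G i x‖ ^ 2) ν := fun i hi =>
    (dep1 (‖·‖ ^ 2) (Gd i (lt hi))).int.const_mul _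
  refine ⟨fun x => H x + ∑ i ∈ range k, s i / l * ‖G i x‖ ^ 2, Hd.int.add (integrable_finsetSum _ i1),
    fun x => add_nonneg (H0 x) (sum_nonneg fun i _ => by have := s0 i; positivity), ?_, fun x hx => ?_⟩
  · rw [integral_add Hd.int (integrable_finsetSum _ i1), integral_finsetSum _ i1, Hi]
    have : ∑ i ∈ range k, ∫ x, s i / l * ‖G i x‖ ^ 2 ∂ν ≤ ∑ i ∈ range k, s i * (2 * ∫ z, ‖g z‖ ∂ν) :=
      sum_le_sum fun i hi => by
        rw [integral_const_mul]
        exact (mul_le_mul_of_nonneg_left (Gi i (lt hi)) (by have := s0 i; positivity)).trans_eq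
          (by field_simp)
    rw [← sum_mul] at this
    nlinarith
  rcases le_total l (H x) with c | c
  · exact le_add_of_le_of_nonneg c (sum_nonneg fun i _ => by have := s0 i; positivity)
  have := hx.trans_le (norm_sum_le_of_le _ (n := fun i => s i * (3 / 2 * l) +
    1 / 2 * (s i / l * ‖G i x‖ ^ 2)) fun i hi => by
      obtain ⟨a, b⟩ := hG i (lt hi) x c
      rw [b, norm_mul, Complex.norm_real, Real.norm_of_nonneg (s0 i),
        show 1 / 2 * (s i / l * ‖G i x‖ ^ 2) = s i * (‖G i x‖ ^ 2 / (2 * l)) by field_simp, ← mul_add]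
      refine mul_le_mul_of_nonneg_left ((norm_sub_le _ _).trans ?_) (s0 i)
      have : ‖G i x‖ - l / 2 ≤ ‖G i x‖ ^ 2 / (2 * l) := by
        rw [le_div_iff₀ (by positivity)]; nlinarith [sq_nonneg (‖G i x‖ - l)]
      linarith)
  rw [sum_add_distrib, ← sum_mul, ← mul_sum] at this
  nlinarith [H0 x]

end Pool.Agent.H.MP_332aa0_an
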