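import Pool.Agent.H.MP_332aa0_an.C

set_option autoImplicit false
set_option maxHeartbeats 400000
open MeasureTheory ProbabilityTheory Finset Filter Topology
open scoped ENNReal ComplexConjugate

namespace Pool.Agent.H.MP_332aa0_an

open Pool.Agent.H.MP_c47ae4_an

noncomputable def s (k j : ℕ) : ℝ := (harmonic k : ℝ)⁻¹ * ((k - j : ℕ) : ℝ)⁻¹

noncomputable def A (k q : ℕ) : ℝ := ∑ j ∈ range (q + 1), s k j

abbrev lg (k : ℕ) : ℕ := Nat.log 2 k + 1

noncomputable def T (k N : ℕ) (g : X → ℂ) (x : X) : ℂ := ∑ q ∈ range (2 ^ N), A k q * hat g q * w q x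

variable {k N : ℕ} {g : X → ℂ}

lemma har (h : 1 ≤ k) : (1 : ℝ) ≤ harmonic k := by
  obtain ⟨k, rfl⟩ := Nat.exists_eq_add_of_le' h
  have : (1 : ℚ) ≤ harmonic (k + 1) := by
    rw [harmonic, sum_range_succ']; simp; positivity
  exact_mod_cast this

lemma s0 (k j : ℕ) : 0 ≤ s k j := by
  have : (0 : ℝ) ≤ harmonic k := by unfold harmonic; positivity
  unfold s; positivity

lemma s1 (h : 1 ≤ k) : ∑ j ∈ range k, s k j = 1 := by
  have := har h
  simp only [s, ← mul_sum]
  rw [inv_mul_eq_one₀ (by positivity), harmonic, ← sum_range_reflect]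
  push_cast
  refine sum_congr rfl fun j hj => ?_
  rw [show k - j = k - 1 - j + 1 by have := mem_range.1 hj; omega]
  simp

lemma s2 (h : 1 ≤ k) (j : ℕ) : s k j ≤ (harmonic k : ℝ)⁻¹ := by
  have := har h
  exact mul_le_of_le_one_right (by positivity) (Nat.cast_inv_le_one _)

lemma ssub {E : Type} [AddCommMonoid E] [Module ℝ E] {n : ℕ} (h : k ≤ n) (c : ℕ → E) :
    ∑ j ∈ range k, s k j • c j = ∑ j ∈ range n, s k j • c j :=
  sum_subset (range_mono h) fun j _ hj => by simp [s, Nat.sub_eq_zero_of_le (by simpa using hj)]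

lemma A1 (h : 1 ≤ k) (q : ℕ) : A k q ≤ 1 := by
  have := ssub (k := k) (n := k + q + 1) (by omega) fun _ => (1 : ℝ)
  simp only [smul_eq_mul, mul_one, s1 h] at this
  exact this ▸ sum_le_sum_of_subset_of_nonneg (range_mono (by omega)) fun _ _ _ => s0 _ _

lemma A2 (h : 1 ≤ k) (q : ℕ) : A k q ≤ 2 * (q + 1) / k := by
  have k0 : (1 : ℝ) ≤ k := by exact_mod_cast h
  rcases le_total k (2 * q) with c | c
  · refine (A1 h q).trans ((one_le_div (by positivity)).2 ?_)
    have : (k : ℝ) ≤ 2 * q := by exact_mod_cast c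
    linarith
  refine (sum_le_card_nsmul (range (q + 1)) (s k) (2 / k) fun j hj => ?_).trans_eq (by simp; ring)
  have : k ≤ 2 * (k - j) := by have := mem_range.1 hj; omega
  have : (k : ℝ) ≤ 2 * (k - j : ℕ) := by exact_mod_cast this
  refine (mul_le_of_le_one_left (by positivity) (inv_le_one_of_one_le₀ (har h))).trans ?_
  rw [inv_eq_one_div, div_le_div_iff₀ (by linarith) (by linarith)]
  linarith

lemma T_eq (h : dep N g) (hk : k ≤ 2 ^ N) (x : X) :
    T k N g x = ∑ j ∈ range k, s k j * (g x - ∑ q ∈ range j, hat g q * w q x) := by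
  have := ssub hk fun j => g x - ∑ q ∈ range j, hat g q * w q x
  simp only [Complex.real_smul] at this
  rw [this, sum_congr rfl fun j hj => by
    rw [← inv h, ← sum_Ico_eq_sub _ (mem_range.1 hj).le, mul_sum]]
  simp only [range_eq_Ico]
  rw [sum_Ico_Ico_comm]
  simp [T, A, sum_mul, mul_assoc]

lemma T_up {L : ℕ} (h : dep L g) (hL : L ≤ N) (x : X) : T k N g x = T k L g x :=
  (sum_subset (range_mono (Nat.pow_le_pow_right two_pos hL)) fun q _ hq => by
    simp [hat_zero h (by simpa using hq)]).symm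

lemma T_sub {g' : X → ℂ} (h : dep N g) (h' : dep N g') (x : X) :
    T k N (fun z => g z - g' z) x = T k N g x - T k N g' x := by
  simp [T, hat_sub h h', mul_sub, sub_mul]

lemma T_dep : dep N (T k N g) := dep_sum _ fun _ hq => dep1 (_ * ·) (w_dep (mem_range.1 hq))

lemma hart : Tendsto (fun k => (harmonic k : ℝ)) atTop atTop :=
  tendsto_atTop_mono log_add_one_le_harmonic (Real.tendsto_log_atTop.comp
    (tendsto_natCast_atTop_atTop.comp (tendsto_add_atTop_nat 1)))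

lemma lgt : Tendsto lg atTop atTop := tendsto_atTop_atTop.2 fun b => ⟨2 ^ b, fun _ h =>
  (Nat.le_log_of_pow_le one_lt_two h).trans (Nat.le_succ _)⟩

lemma T_low (g : X → ℂ) (M : ℕ) {η : ℝ} (hη : 0 < η) : ∀ᶠ k in atTop, ∀ x, ‖T k M g x‖ ≤ η := by
  have := (hart.inv_tendsto_atTop.const_mul (∑ q ∈ range (2 ^ M), (q + 1) * ‖hat g q‖))
  rw [mul_zero] at this
  filter_upwards [this.eventually_le_const hη, eventually_ge_atTop 1] with k a b x
  refine (norm_sum_le_of_le _ fun q _ => ?_).trans ((sum_mul ..).symm.trans_le a)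
  rw [norm_mul, norm_mul, w_norm, mul_one, mul_right_comm, Complex.norm_real,
    Real.norm_of_nonneg (show 0 ≤ A k q from sum_nonneg fun _ _ => s0 _ _)]
  gcongr
  simpa [A] using sum_le_card_nsmul (range (q + 1)) _ _ fun j _ => s2 b j

variable {f : ℕ → X → ℂ} {p : ℝ}

lemma T_tel (hf : ∀ n, dep n (f n)) {M : ℕ} (h : M ≤ N) (x : X) : T k N (fun z => f N z - f M z) x =
    ∑ m ∈ Ico M N, T k (m + 1) (fun z => f (m + 1) z - f m z) x := by
  induction N, h using Nat.le_induction with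
  | base => simp [T, hat]
  | succ N h ih =>
    have a := (hf N).mono N.le_succ
    have b := (hf M).mono h
    rw [sum_Ico_succ_top h, ← ih, ← T_up (dep2 (· - ·) (hf N) b) N.le_succ, T_sub (hf _) a,
      T_sub a (b.mono N.le_succ), T_sub (hf _) (b.mono N.le_succ)]
    ring

lemma high (p0 : 0 < p) (p1 : p < 1) (hf : ∀ n, dep n (f n)) {C : ℝ} (C0 : 0 ≤ C)
    (hC : ∀ᶠ m : ℕ in atTop, (2 ^ (m + 1)) ^ (1 - p) * ∫ z, ‖f (m + 1) z - f m z‖ ^ p ∂ν ≤
      C * Real.log m ^ p) {ε : ℝ} (hε : 0 < ε) : ∃ M, ∀ᶠ k in atTop,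
      ∫ x, ‖T k (lg k) (fun z => f (lg k) z - f M z) x‖ ^ p ∂ν ≤ ε := by
  obtain ⟨K, K0, hK⟩ := small p0 p1
  obtain ⟨M0, hM⟩ := eventually_atTop.1 hC
  have r0 : (0 : ℝ) < 2 ^ (p - 1) := by positivity
  have r1 : (2 : ℝ) ^ (p - 1) < 1 := Real.rpow_lt_one_of_one_lt_of_neg one_lt_two (by linarith)
  obtain ⟨u, hu⟩ := summable_iff_vanishing_norm.1 ((summable_pow_mul_geometric_of_norm_lt_one 1
    (r := (2 : ℝ) ^ (p - 1)) (by rwa [Real.norm_of_nonneg r0.le])).mul_left C) _ (half_pos hε)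
  obtain ⟨τ, hτ⟩ : ∃ τ : ℝ, τ = (1 / 2) ^ (p / 2) := ⟨_, rfl⟩
  have t0 : 0 < τ := by rw [hτ]; positivity
  have t1 : τ < 1 := hτ ▸ Real.rpow_lt_one (by norm_num) (by norm_num) (by positivity)
  have γ0 : 0 < (1 - p) * (p / 2) := mul_pos (by linarith) (by positivity)
  have lim := ((isLittleO_log_rpow_rpow_atTop p γ0).tendsto_div_nhds_zero.comp
    (hart.const_mul_atTop three_pos)).const_mul
    (C * K * 3 ^ ((1 - p) * (p / 2)) * 8 ^ (p / 2) * (1 - τ)⁻¹)
  rw [mul_zero] at lim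
  refine ⟨M0 + u.sup id + 1, ?_⟩
  filter_upwards [lim.eventually_le_const (half_pos hε), eventually_ge_atTop 1,
    lgt.eventually_ge_atTop (M0 + u.sup id + 1)] with k a k1 b
  have h1 := har k1
  have d : ∀ m, dep (m + 1) fun z => f (m + 1) z - f m z := fun m =>
    dep2 (· - ·) (hf _) ((hf m).mono m.le_succ)
  have i : ∀ m, Integrable (fun x => ‖T k (m + 1) (fun z => f (m + 1) z - f m z) x‖ ^ p) ν := fun m =>
    (dep1 (‖·‖ ^ p) T_dep).int
  refine (integral_mono (dep1 (‖·‖ ^ p) T_dep).int (integrable_finsetSum (Ico _ (lg k)) fun m _ => i m)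
    fun x => by simp only [T_tel hf b]; exact psum p0 p1.le _ _).trans ?_
  rw [integral_finsetSum _ fun m _ => i m]
  have kk : (2 : ℝ) ^ lg k ≤ 2 * k := by
    rw [pow_succ']; exact_mod_cast Nat.mul_le_mul_left 2 (Nat.pow_log_le_self 2 (by omega))
  have l3 : (lg k : ℝ) ≤ 3 * harmonic k := by
    have := (Real.log_le_log (by positivity) kk).trans_eq (Real.log_mul two_ne_zero (by positivity))
    rw [Real.log_pow] at this
    have e := (Real.log_le_log (by positivity) (Nat.cast_le.2 k.le_succ)).trans (log_add_one_le_harmonic k)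
    nlinarith [Real.log_two_gt_d9, Real.log_two_lt_d9, (lg k).cast_nonneg (α := ℝ)]
  refine (sum_le_sum (g := fun m : ℕ => C * (m ^ 1 * (2 ^ (p - 1)) ^ m) +
    C * K * (harmonic k : ℝ)⁻¹ ^ ((1 - p) * (p / 2)) * 8 ^ (p / 2) * Real.log (3 * harmonic k) ^ p *
      τ ^ (lg k - 1 - m)) fun m hm => ?_).trans ?_
  · obtain ⟨m1, m2⟩ := mem_Ico.1 hm
    have m0 : (1 : ℝ) ≤ m := by exact_mod_cast (by omega : 1 ≤ m)
    have lm := Real.log_nonneg m0
    refine (hK (σ := (harmonic k : ℝ)⁻¹) (V := 8 * (1 / 2) ^ (lg k - 1 - m)) (by positivity) (by positivity)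
      (sum_nonneg fun _ _ => s0 _ _) (fun q => ⟨?_, ?_, A1 k1 q⟩) ((A2 k1 _).trans ?_) (d m)).trans
      ((mul_le_mul_of_nonneg_right (hM m (by omega)) (by positivity)).trans ?_)
    · rw [A, A, sum_range_succ _ (q + 1)]; linarith [s0 k (q + 1)]
    · rw [A, A, sum_range_succ _ (q + 1)]; linarith [s2 k1 (q + 1)]
    · obtain ⟨e, he⟩ := Nat.exists_eq_add_of_lt m2
      rw [he, show m + e + 1 - 1 - m = e by omega, div_le_iff₀ (by positivity), one_div, inv_pow]
      rw [he, show m + e + 1 = e + (m + 1) by ring, pow_add, ← le_inv_mul_iff₀ (by positivity)] at kk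
      push_cast
      linarith [one_le_pow₀ (n := m + 1) (one_le_two (α := ℝ))]
    rw [mul_add]
    refine add_le_add ?_ ?_
    · rw [← Real.rpow_pow_comm zero_le_two, mul_assoc, pow_one]
      exact mul_le_mul_of_nonneg_left (mul_le_mul ((Real.rpow_le_rpow lm (Real.log_le_self
        (by positivity)) p0.le).trans (Real.rpow_le_self_of_one_le m0 p1.le))
        (pow_le_pow_of_le_one r0.le r1.le m.le_succ) (by positivity) (by positivity)) C0
    · rw [Real.mul_rpow (by positivity) (by positivity), Real.mul_rpow (by positivity) (by positivity),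
        ← Real.rpow_mul (by positivity), ← Real.rpow_pow_comm (by norm_num), ← hτ]
      have : Real.log m ^ p ≤ Real.log (3 * harmonic k) ^ p := Real.rpow_le_rpow lm
        (Real.log_le_log (by positivity) ((Nat.cast_le.2 m2.le).trans l3)) p0.le
      calc _ ≤ C * Real.log (3 * harmonic k) ^ p * (K * ((harmonic k : ℝ)⁻¹ ^ ((1 - p) * (p / 2)) *
            (8 ^ (p / 2) * τ ^ (lg k - 1 - m)))) := by gcongr
        _ = _ := by ring
  rw [sum_add_distrib, ← add_halves ε]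
  refine add_le_add ((le_abs_self _).trans (hu _ (disjoint_left.2 fun m hm c => ?_)).le) ?_
  · have := le_sup (f := id) c
    have := (mem_Ico.1 hm).1
    simp at *; omega
  have g1 : ∑ m ∈ Ico (M0 + u.sup id + 1) (lg k), τ ^ (lg k - 1 - m) ≤ (1 - τ)⁻¹ := by
    refine (sum_le_sum_of_subset_of_nonneg (t := range (lg k)) (fun m hm => mem_range.2 (mem_Ico.1 hm).2)
      fun _ _ _ => by positivity).trans ?_
    rw [sum_range_reflect (τ ^ ·)]
    exact tsum_geometric_of_lt_one t0.le t1 ▸ (summable_geometric_of_lt_one t0.le t1).sum_le_tsum _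
      fun _ _ => by positivity
  have := Real.log_nonneg (show 1 ≤ 3 * (harmonic k : ℝ) by linarith)
  rw [← mul_sum]
  refine (mul_le_mul_of_nonneg_left g1 (by positivity)).trans (le_of_eq_of_le ?_ a)
  simp only [Function.comp]
  rw [Real.mul_rpow (by norm_num) (by positivity), Real.inv_rpow (by positivity)]
  field_simp

lemma key (p0 : 0 < p) (p1 : p ≤ 1) (hf : ∀ n, dep n (f n)) {C : ℝ} (C0 : 0 ≤ C)
    (hC : p < 1 → ∀ᶠ m : ℕ in atTop, (2 ^ (m + 1)) ^ (1 - p) * ∫ z, ‖f (m + 1) z - f m z‖ ^ p ∂ν ≤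
      C * Real.log m ^ p) (h1 : ∀ ε > 0, ∃ M, ∀ j ≥ M, ∫ z, ‖f j z - f M z‖ ^ p ∂ν ≤ ε)
    {ε : ℝ} (hε : 0 < ε) : ∀ᶠ k in atTop, ∀ t > 0, ∃ Ψ : X → ℝ, Integrable Ψ ν ∧ (∀ x, 0 ≤ Ψ x) ∧
      ∫ x, Ψ x ∂ν ≤ ε ∧ ∀ x, t < ‖T k (lg k) (f (lg k)) x‖ → t ^ p ≤ Ψ x := by
  have : ∃ M, ∀ᶠ k in atTop, ∀ t > 0, ∃ Ψ : X → ℝ, Integrable Ψ ν ∧ (∀ x, 0 ≤ Ψ x) ∧
      ∫ x, Ψ x ∂ν ≤ ε ∧ ∀ x, t / 2 < ‖T k (lg k) (fun z => f (lg k) z - f M z) x‖ → t ^ p ≤ Ψ x := by
    rcases p1.lt_or_eq with c | rfl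
    · obtain ⟨M, hM⟩ := high p0 c hf C0 (hC c) (half_pos hε)
      refine ⟨M, hM.mono fun k a t t0 => ⟨fun x => 2 * ‖T k (lg k) (fun z => f (lg k) z - f M z) x‖ ^ p,
        (dep1 (‖·‖ ^ p) T_dep).int.const_mul _, fun x => by positivity, by
          rw [integral_const_mul]; linarith, fun x hx => ?_⟩⟩
      rw [show t = 2 * (t / 2) by ring, Real.mul_rpow zero_le_two (by positivity)]
      exact mul_le_mul (Real.rpow_le_self_of_one_le one_le_two p1)
        (Real.rpow_le_rpow (by positivity) hx.le p0.le) (by positivity) zero_le_two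
    obtain ⟨M, hM⟩ := h1 (ε / 12) (by positivity)
    refine ⟨M, ?_⟩
    filter_upwards [eventually_ge_atTop 1, lgt.eventually_ge_atTop M] with k k1 b t t0
    have d := dep2 (· - ·) (hf _) ((hf M).mono b)
    have kl : k ≤ 2 ^ lg k := (Nat.lt_pow_succ_log_self one_lt_two k).le
    obtain ⟨Ψ, i, n, e, h⟩ := weak' d (l := t / 4) (by positivity) kl (s0 k) (s1 k1).le
    refine ⟨fun x => 4 * Ψ x, i.const_mul _, fun x => by linarith [n x], ?_, fun x hx => ?_⟩
    · have := hM _ b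
      simp only [Real.rpow_one] at this
      rw [integral_const_mul]; linarith
    · rw [T_eq d kl] at hx
      rw [Real.rpow_one]; linarith [h x (by linarith)]
  obtain ⟨M, hM⟩ := this
  filter_upwards [hM, T_low (f M) M (η := ε ^ p⁻¹ / 2) (by positivity), lgt.eventually_ge_atTop M]
    with k a b c t t0
  rcases le_total t (ε ^ p⁻¹) with e | e
  · exact ⟨fun _ => ε, integrable_const _, fun _ => hε.le, by simp, fun _ _ =>
      (Real.le_rpow_inv_iff_of_pos t0.le hε.le p0).1 e⟩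
  obtain ⟨Ψ, i, n, h, h'⟩ := a t t0
  refine ⟨Ψ, i, n, h, fun x hx => h' x ?_⟩
  rw [T_sub (hf _) ((hf M).mono c), T_up (hf M) c]
  linarith [norm_sub_norm_le (T k (lg k) (f (lg k)) x) (T k M (f M) x), b x]

end Pool.Agent.H.MP_332aa0_an
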